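import Pool.Agent.Helper72.GP.Goals

/-!
# Project GP (MP_c9dfb5_co), packet CONV: convexity
-/

set_option autoImplicit false

namespace Pool.Agent.Helper4.GP

open Finset
open scoped Classical
open Pool.Agent.Helper72.GP

theorem conv : CONV := by
  intro M L e H2 a b c U1 U2 U3 hM he ha hb hab hH h1 h2 h3 hK hF1 hF2 hF3
  have hM0 : 0 < M := by omega
  have hNe : NeZero M := ⟨by omega⟩
  have hKz : ∀ i, (b : ℤ) * U1 i + a * U3 i = (a + b) * U2 i := by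
    intro i
    exact_mod_cast hK i
  -- the quadratic expression
  set Q : ℤ := ∑ i, ((b : ℤ) * (U1 i : ℤ) ^ 2 + a * (U3 i : ℤ) ^ 2 - (a + b) * (U2 i : ℤ) ^ 2)
    with hQ
  set D : ℤ := ∑ i, ((U1 i : ℤ) - U3 i) ^ 2 with hD
  have hmQ : ((a : ℤ) + b) * Q = a * b * D := by
    rw [hQ, hD, mul_sum, mul_sum]
    refine sum_congr rfl fun i _ => ?_
    have := hKz i
    linear_combination ((b : ℤ) * U1 i + a * U3 i + (a + b) * U2 i) * this
  have hD0 : 0 ≤ D := sum_nonneg fun i _ => sq_nonneg _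
  have hDi : ∀ i, ((U1 i : ℤ) - U3 i) ^ 2 ≤ D := fun i =>
    single_le_sum (f := fun i => ((U1 i : ℤ) - U3 i) ^ 2) (fun j _ => sq_nonneg _) (mem_univ i)
  have hDL : D ≤ 8 * (L : ℤ) ^ 2 := by
    have hi : ∀ i ∈ (univ : Finset (Fin 8)), ((U1 i : ℤ) - U3 i) ^ 2 ≤ (L : ℤ) ^ 2 := by
      intro i _
      have ha1 : (U1 i : ℤ) < L := by exact_mod_cast h1 i
      have ha3 : (U3 i : ℤ) < L := by exact_mod_cast h3 i
      have hb1 : (0 : ℤ) ≤ U1 i := by positivity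
      have hb3 : (0 : ℤ) ≤ U3 i := by positivity
      apply sq_le_sq'
      · linarith
      · linarith
    have := sum_le_sum hi
    rw [sum_const, card_univ, Fintype.card_fin] at this
    have h8 : (8 : ℕ) • ((L : ℤ) ^ 2) = 8 * (L : ℤ) ^ 2 := by
      rw [nsmul_eq_mul]
      norm_num
    rw [h8] at this
    exact this
  have haz : (0 : ℤ) < a := by exact_mod_cast ha
  have hbz : (0 : ℤ) < b := by exact_mod_cast hb
  have hHz : (a : ℤ) + b ≤ H2 := by exact_mod_cast hH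
  have hL0 : (0 : ℤ) ≤ (L : ℤ) ^ 2 := sq_nonneg _
  have hez : (e : ℤ) ^ 2 ≤ 8 * (L : ℤ) ^ 2 := by exact_mod_cast he
  have he0 : (0 : ℤ) ≤ (e : ℤ) ^ 2 := sq_nonneg _
  have hMz : 16 * ((H2 : ℤ) * (L : ℤ) ^ 2) < M := by exact_mod_cast hM
  have hmpos : (0 : ℤ) < (a : ℤ) + b := by linarith
  have hQ0 : 0 ≤ Q := by
    have h4 : 0 ≤ ((a : ℤ) + b) * Q := by
      rw [hmQ]
      positivity
    exact nonneg_of_mul_nonneg_right h4 hmpos
  have hHL : ((a : ℤ) + b) * (L : ℤ) ^ 2 ≤ (H2 : ℤ) * (L : ℤ) ^ 2 :=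
    mul_le_mul_of_nonneg_right hHz hL0
  have hQL : Q ≤ 2 * ((H2 : ℤ) * (L : ℤ) ^ 2) := by
    have h4 : ((a : ℤ) + b) * Q ≤ ((a : ℤ) + b) * (2 * (((a : ℤ) + b) * (L : ℤ) ^ 2)) := by
      rw [hmQ]
      have h5 : 4 * ((a : ℤ) * b) ≤ ((a : ℤ) + b) ^ 2 := by nlinarith [sq_nonneg ((a : ℤ) - b)]
      have h6 : (a : ℤ) * b * D ≤ a * b * (8 * (L : ℤ) ^ 2) :=
        mul_le_mul_of_nonneg_left hDL (by positivity)
      nlinarith [mul_le_mul_of_nonneg_right h5 hL0]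
    have h5 := le_of_mul_le_mul_left h4 hmpos
    linarith
  -- the representatives
  set f1 : ℕ := (Fq c U1).val with hf1
  set f2 : ℕ := (Fq c U2).val with hf2
  set f3 : ℕ := (Fq c U3).val with hf3
  have hv1 : ((f1 : ℕ) : ZMod M) = Fq c U1 := ZMod.natCast_zmod_val _
  have hv2 : ((f2 : ℕ) : ZMod M) = Fq c U2 := ZMod.natCast_zmod_val _
  have hv3 : ((f3 : ℕ) : ZMod M) = Fq c U3 := ZMod.natCast_zmod_val _
  have hcong : ((Q : ℤ) : ZMod M) =
      (((b : ℤ) * f1 + a * f3 - (a + b) * f2 : ℤ) : ZMod M) := by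
    have hQc : ((Q : ℤ) : ZMod M) = (b : ZMod M) * ∑ i, (U1 i : ZMod M) ^ 2 +
        a * ∑ i, (U3 i : ZMod M) ^ 2 - (a + b) * ∑ i, (U2 i : ZMod M) ^ 2 := by
      rw [hQ, mul_sum, mul_sum, mul_sum, ← sum_add_distrib, ← sum_sub_distrib]
      push_cast
      rfl
    have hT : (b : ZMod M) * ∑ i, c.2 i * (U1 i : ZMod M) + a * ∑ i, c.2 i * (U3 i : ZMod M) -
        (a + b) * ∑ i, c.2 i * (U2 i : ZMod M) = 0 := by
      rw [mul_sum, mul_sum, mul_sum, ← sum_add_distrib, ← sum_sub_distrib]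
      refine sum_eq_zero fun i _ => ?_
      have h5 : (b : ZMod M) * U1 i + a * U3 i = (a + b) * U2 i := by
        have := congrArg (fun z : ℤ => (z : ZMod M)) (hKz i)
        push_cast at this
        exact this
      linear_combination c.2 i * h5
    push_cast
    rw [hv1, hv2, hv3, hQc]
    unfold Fq
    linear_combination (-1 : ZMod M) * hT
  have hdvd : (M : ℤ) ∣ ((b : ℤ) * f1 + a * f3 - (a + b) * f2) - Q :=
    (ZMod.intCast_eq_intCast_iff_dvd_sub _ _ _).1 hcong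
  have hf1z : (f1 : ℤ) < (e : ℤ) ^ 2 := by exact_mod_cast hF1
  have hf2z : (f2 : ℤ) < (e : ℤ) ^ 2 := by exact_mod_cast hF2
  have hf3z : (f3 : ℤ) < (e : ℤ) ^ 2 := by exact_mod_cast hF3
  have hg1 : (0 : ℤ) ≤ f1 := by positivity
  have hg2 : (0 : ℤ) ≤ f2 := by positivity
  have hg3 : (0 : ℤ) ≤ f3 := by positivity
  have hme : ((a : ℤ) + b) * (e : ℤ) ^ 2 ≤ 8 * ((H2 : ℤ) * (L : ℤ) ^ 2) := by
    have := mul_le_mul_of_nonneg_left hez hmpos.le
    linarith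
  have hup : (b : ℤ) * f1 + a * f3 < (a + b) * (e : ℤ) ^ 2 := by
    have h5 := mul_lt_mul_of_pos_left hf1z hbz
    have h6 := mul_lt_mul_of_pos_left hf3z haz
    linarith
  have hup2 : ((a : ℤ) + b) * f2 < (a + b) * (e : ℤ) ^ 2 := mul_lt_mul_of_pos_left hf2z hmpos
  have hlow : (0 : ℤ) ≤ (b : ℤ) * f1 + a * f3 := by positivity
  have hlow2 : (0 : ℤ) ≤ ((a : ℤ) + b) * f2 := by positivity
  have hHL0 : (0 : ℤ) ≤ (H2 : ℤ) * (L : ℤ) ^ 2 := by positivity
  have heq : ((b : ℤ) * f1 + a * f3 - (a + b) * f2) - Q = 0 := by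
    apply Int.eq_zero_of_abs_lt_dvd hdvd
    rw [abs_lt]
    constructor
    · linarith
    · linarith
  have hQlt : Q < (a + b) * (e : ℤ) ^ 2 := by linarith
  have hDlt : D < (((a : ℤ) + b) * e) ^ 2 := by
    have h5 : D ≤ a * b * D := by
      have h6 : (1 : ℤ) ≤ a * b := by nlinarith
      nlinarith
    have h7 : ((a : ℤ) + b) * Q < ((a : ℤ) + b) * ((a + b) * (e : ℤ) ^ 2) :=
      mul_lt_mul_of_pos_left hQlt hmpos
    calc D ≤ a * b * D := h5
      _ = ((a : ℤ) + b) * Q := hmQ.symm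
      _ < ((a : ℤ) + b) * ((a + b) * (e : ℤ) ^ 2) := h7
      _ = _ := by ring
  intro i
  constructor
  · have h5 : (b : ℤ) * ((U1 i : ℤ) - U3 i) = ((a : ℤ) + b) * ((U2 i : ℤ) - U3 i) := by
      linear_combination hKz i
    have hcop : IsCoprime (((a + b : ℕ) : ℤ)) (b : ℤ) := by
      rw [Nat.isCoprime_iff_coprime]
      simpa using hab
    refine hcop.dvd_of_dvd_mul_left ?_
    rw [h5]
    push_cast
    exact dvd_mul_right _ _
  · apply abs_lt_of_sq_lt_sq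
    · exact lt_of_le_of_lt (hDi i) hDlt
    · positivity

end Pool.Agent.Helper4.GP
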