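import Pool.Agent.Helper89.GP.GoalsC
import Pool.Agent.Helper89.GP.Basic

/-!
# FNC: the decision tree
-/

namespace Pool.Agent.Helper4.GP

open Finset Pool.Agent.Helper89.GP

theorem LX_add {n : ℕ} (R : Fin n → Fin n → Prop) (u v : Fin n) :
    LX (fun p q => R p q ∨ (p = u ∧ q = v)) = (LX R).filter fun σ => σ u < σ v := by
  ext σ
  rw [mem_filter, mem_LX, mem_LX]
  constructor
  · intro h
    exact ⟨fun a b hab => h a b (Or.inl hab), h u v (Or.inr ⟨rfl, rfl⟩)⟩
  · rintro ⟨h1, h2⟩ a b (h | ⟨rfl, rfl⟩)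
    · exact h1 a b h
    · exact h2

theorem filter_not_lt {n : ℕ} (S : Finset (Equiv.Perm (Fin n))) {a b : Fin n} (h : a ≠ b) :
    (S.filter fun σ => ¬ σ a < σ b) = S.filter fun σ => σ b < σ a := by
  apply Finset.filter_congr
  intro σ _
  constructor
  · intro h1
    exact lt_of_le_of_ne (not_lt.1 h1) fun h2 => h (σ.injective h2).symm
  · intro h1 h2
    exact absurd h1 (not_lt.2 h2.le)

/-- Two more comparisons. -/
theorem step (k n : ℕ) (R : Fin n → Fin n → Prop)
    (ih : ∀ (R' : Fin n → Fin n → Prop), (LX R').card < 2 ^ (k + 1) → DTree (2 * k) (LX R'))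
    (hc : (LX R).card < 2 ^ (k + 1 + 1)) (u v c d : Fin n) (hcd : c ≠ d)
    (H : ∀ w z, ((w = c ∧ z = d) ∨ (w = d ∧ z = c)) →
      2 * ((LX R).filter fun σ => σ u < σ v ∧ σ w < σ z).card ≤ (LX R).card) :
    DTree (2 * k + 1) ((LX R).filter fun σ => σ u < σ v) := by
  have key : ∀ w z, ((w = c ∧ z = d) ∨ (w = d ∧ z = c)) →
      DTree (2 * k) (((LX R).filter fun σ => σ u < σ v).filter fun σ => σ w < σ z) := by
    intro w z hwz
    have h1 := H w z hwz
    have h2 : ((LX R).filter fun σ => σ u < σ v).filter (fun σ => σ w < σ z) =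
        LX (fun p q => (R p q ∨ (p = u ∧ q = v)) ∨ (p = w ∧ q = z)) := by
      rw [LX_add (fun p q => R p q ∨ (p = u ∧ q = v)) w z, LX_add R u v]
    have h3 : ((LX R).filter fun σ => σ u < σ v).filter (fun σ => σ w < σ z) =
        (LX R).filter fun σ => σ u < σ v ∧ σ w < σ z := Finset.filter_filter _ _ _
    have h4 : (LX (fun p q => (R p q ∨ (p = u ∧ q = v)) ∨ (p = w ∧ q = z))).card
        < 2 ^ (k + 1) := by
      rw [← h2, h3]
      have : 2 ^ (k + 1 + 1) = 2 * 2 ^ (k + 1) := by ring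
      omega
    rw [h2]
    exact ih _ h4
  refine Or.inr ⟨c, d, key c d (Or.inl ⟨rfl, rfl⟩), ?_⟩
  rw [filter_not_lt _ hcd]
  exact key d c (Or.inr ⟨rfl, rfl⟩)

theorem fnc (h : FnbStmt) : FncStmt := by
  intro k
  induction k with
  | zero =>
    intro n R hc
    show (LX R).card ≤ 1
    simpa using Nat.lt_succ_iff.1 hc
  | succ k ih =>
    intro n R hc
    show DTree (2 * k + 1 + 1) (LX R)
    by_cases h1 : (LX R).card ≤ 1
    · exact Or.inl h1
    · obtain ⟨a, b, hab, H⟩ := h n R (by omega)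
      refine Or.inr ⟨a, b, ?_, ?_⟩
      · obtain ⟨c, d, hcd, H2⟩ := H a b (Or.inl ⟨rfl, rfl⟩)
        exact step k n R (ih n) hc a b c d hcd H2
      · rw [filter_not_lt _ hab]
        obtain ⟨c, d, hcd, H2⟩ := H b a (Or.inr ⟨rfl, rfl⟩)
        exact step k n R (ih n) hc b a c d hcd H2

end Pool.Agent.Helper4.GP
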